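import Mathlib
import Pool.Agent.Run7.h295.EC.Fin

/-!
# MP_2a9600_co: edge cover polynomials at minimum degree two have three distinct roots

An edge covering set of a graph `G` is a set of edges that meets every vertex, `edgeCoverCount G i`
is the number of those with `i` edges, and `edgeCoverPolynomial G = Σ edgeCoverCount G i X^i`.

THEOREM. If `G` is connected, `δ(G) ≥ 2` and `G` is not the triangle, then the edge cover
polynomial of `G` has at least three distinct complex roots.

Proof. Suppose that there are at most two roots. As `0` is a root and the coefficients of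
`x^m`, `x^(m-1)` are `1` and `m`, the polynomial is `x^s (x + b)^k` with `s + k = m = b k`, and
integrality gives `b` integer. The coefficient of `x^(m-2)` is `C(m,2) - a` with `a` the number of
vertices of degree two, so `2 a = m (b - 1)`, and `a ≤ n ≤ m` leaves `b = 2` and `b = 3`.
If `b = 3` then `G` is 2-regular and the formula of Tutte and Berge gives an edge cover with fewer
than `s` edges unless `n = 3`. If `b = 2` then `a = s = m / 2`. By Tutte and Berge there is an edge
cover with fewer than `s` edges, or `G` has five vertices, or there is an independent set `W` such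
that the components of `G - W` are single vertices of degree two and triangles which are joined to
`W` by one edge. In the last case the sets of edges which cover all vertices outside `W` are
`3^(m/2)` in number and not all of them cover `W`, but the value of the polynomial at `1` is
`3^(m/2)`. The two graphs with five vertices have 25 and 26 edge covers, not 27.
-/

namespace Pool.Agent.Results.MP_2a9600_co.ThreeDistinctRoots

open Polynomial

/-- `S` is an edge covering set of `G`: a set of edges such that every vertex is an endpoint of at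
least one edge in `S`. -/
def IsEdgeCoveringSet {V : Type} (G : SimpleGraph V) (S : Set (Sym2 V)) : Prop :=
  S ⊆ G.edgeSet ∧ ∀ v : V, ∃ e ∈ S, v ∈ e

/-- `e(G,i)`: the number of edge covering sets of `G` with exactly `i` edges. -/
noncomputable def edgeCoverCount {V : Type} (G : SimpleGraph V) (i : ℕ) : ℕ :=
  {S : Set (Sym2 V) | IsEdgeCoveringSet G S ∧ S.ncard = i}.ncard

/-- `E(G,x)`: the edge cover polynomial of `G`. -/
noncomputable def edgeCoverPolynomial {V : Type} (G : SimpleGraph V) : ℂ[X] :=
  ∑ i ∈ Finset.range (G.edgeSet.ncard + 1), C (edgeCoverCount G i : ℂ) * X ^ i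

lemma count_eq {V : Type} [Fintype V] (G : SimpleGraph V) (i : ℕ) :
    edgeCoverCount G i = Run7.h295.EC.ec G i := by
  classical
  unfold edgeCoverCount Run7.h295.EC.ec
  rw [← Set.ncard_coe_finset]
  symm
  apply Set.ncard_congr (fun (S : Finset (Sym2 V)) _ => (S : Set (Sym2 V)))
  · intro S hS
    rw [Finset.mem_coe, Finset.mem_filter, Run7.h295.EC.covers, Finset.mem_filter,
      Finset.mem_powerset] at hS
    obtain ⟨⟨h1, h2⟩, h3⟩ := hS
    refine ⟨⟨?_, ?_⟩, ?_⟩
    · intro e he
      exact (Run7.h295.EC.mem_EE G e).1 (h1 he)
    · intro v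
      obtain ⟨e, he, hv⟩ := h2 v
      exact ⟨e, he, hv⟩
    · rw [Set.ncard_coe_finset]; exact h3
  · intro S T _ _ h
    exact Finset.coe_injective h
  · intro S hS
    obtain ⟨⟨h1, h2⟩, h3⟩ := hS
    refine ⟨S.toFinset, ?_, by simp⟩
    rw [Finset.mem_coe, Finset.mem_filter, Run7.h295.EC.covers, Finset.mem_filter,
      Finset.mem_powerset]
    refine ⟨⟨?_, ?_⟩, ?_⟩
    · intro e he
      exact (Run7.h295.EC.mem_EE G e).2 (h1 (by simpa using he))
    · intro v
      obtain ⟨e, he, hv⟩ := h2 v
      exact ⟨e, by simpa using he, hv⟩
    · rw [← h3, Set.ncard_eq_toFinset_card']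

lemma edges_eq {V : Type} [Fintype V] (G : SimpleGraph V) :
    G.edgeSet.ncard = (Run7.h295.EC.EE G).card := by
  classical
  rw [← Set.ncard_coe_finset]
  congr 1
  ext e
  rw [Finset.mem_coe, Run7.h295.EC.mem_EE]

lemma dg_eq {V : Type} [Fintype V] (G : SimpleGraph V) [DecidableRel G.Adj] (v : V) :
    Run7.h295.EC.dg G v = G.degree v := by
  classical
  rw [← SimpleGraph.card_incidenceFinset_eq_degree]
  unfold Run7.h295.EC.dg Run7.h295.EC.inc
  congr 1
  ext e
  rw [Finset.mem_filter, Run7.h295.EC.mem_EE, SimpleGraph.mem_incidenceFinset]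
  rfl

/-- **The edge cover polynomial of a connected graph `G ≠ K₃` with minimum degree at least two has
at least three distinct complex roots.** -/
theorem result (V : Type) [Fintype V] (G : SimpleGraph V) [DecidableRel G.Adj]
    (hconn : G.Connected) (hdeg : 2 ≤ G.minDegree)
    (hK : ¬ Nonempty (G ≃g (⊤ : SimpleGraph (Fin 3)))) :
    3 ≤ (edgeCoverPolynomial G).roots.toFinset.card := by
  classical
  have hE : edgeCoverPolynomial G = Run7.h295.EC.ecPoly G := by
    unfold edgeCoverPolynomial Run7.h295.EC.ecPoly
    rw [edges_eq]
    exact Finset.sum_congr rfl (fun i _ => by rw [count_eq])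
  have hd : ∀ v, 2 ≤ Run7.h295.EC.dg G v := by
    intro v
    rw [dg_eq]
    exact hdeg.trans (G.minDegree_le_degree v)
  rw [hE]
  apply Run7.h295.EC.final V G hconn hd
  intro h3
  apply hK
  have htop : G = ⊤ := by
    ext a b
    rw [SimpleGraph.top_adj]
    refine ⟨fun h => h.ne, fun hab => ?_⟩
    by_contra hcon
    have h1 : G.neighborFinset a ⊆ Finset.univ \ {a, b} := by
      intro c hc
      rw [SimpleGraph.mem_neighborFinset] at hc
      rw [Finset.mem_sdiff, Finset.mem_insert, Finset.mem_singleton]
      refine ⟨Finset.mem_univ _, ?_⟩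
      rintro (rfl | rfl)
      · exact G.irrefl hc
      · exact hcon hc
    have h2 := Finset.card_le_card h1
    have h4 : (Finset.univ \ {a, b} : Finset V).card = 1 := by
      rw [Finset.card_sdiff_of_subset (Finset.subset_univ _), Finset.card_univ, h3,
        Finset.card_pair hab]
    rw [SimpleGraph.card_neighborFinset_eq_degree, h4] at h2
    have := hdeg.trans (G.minDegree_le_degree a)
    omega
  subst htop
  have e : V ≃ Fin 3 := Fintype.equivFinOfCardEq h3
  exact ⟨SimpleGraph.Iso.completeGraph e⟩

end Pool.Agent.Results.MP_2a9600_co.ThreeDistinctRoots
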